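import Pool.Agent.V1137.SHDCube

open Filter Topology Set

namespace Pool.Agent.Results.MP_47dce7_gt.Remainder

open Pool.Agent.V1137.SHDCube

universe u v

/-- Realcompact: homeomorphic to a closed subspace of a power of the real line. -/
def Realcompact (X : Type u) [TopologicalSpace X] : Prop :=
  ∃ (κ : Type v) (i : X → κ → ℝ), IsClosedEmbedding i

/-- The Stone-Čech remainder of `X`. -/
def Rem (X : Type u) [TopologicalSpace X] : Set (StoneCech X) :=
  (Set.range (stoneCechUnit : X → StoneCech X))ᶜ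

variable {X : Type u} [TopologicalSpace X]

theorem exists_ext (f : X → ℝ) (hf : Continuous f) (hb : ∀ x, f x ∈ Set.Icc (-1 : ℝ) 1) :
    ∃ g : StoneCech X → ℝ, Continuous g ∧ (∀ p, g p ∈ Set.Icc (-1 : ℝ) 1) ∧
      ∀ x, g (stoneCechUnit x) = f x := by
  have h1 : Continuous (fun x => (⟨f x, hb x⟩ : Set.Icc (-1 : ℝ) 1)) := hf.subtype_mk _
  refine ⟨fun p => (stoneCechExtend h1 p).1,
    continuous_subtype_val.comp (continuous_stoneCechExtend h1),
    fun p => (stoneCechExtend h1 p).2, fun x => ?_⟩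
  exact congrArg Subtype.val (stoneCechExtend_stoneCechUnit h1 x)

theorem abs_frac_lt (t : ℝ) : |t / (1 + |t|)| < 1 := by
  have h : 0 < 1 + |t| := by positivity
  rw [abs_div, abs_of_pos h, div_lt_one h]
  linarith

theorem frac_inv (t : ℝ) : (t / (1 + |t|)) / (1 - |t / (1 + |t|)|) = t := by
  have h : 0 < 1 + |t| := by positivity
  have h' : 1 - |t / (1 + |t|)| = 1 / (1 + |t|) := by
    rw [abs_div, abs_of_pos h]
    field_simp
    ring
  rw [h']
  field_simp

/-- A point of the remainder of a realcompact space is a zero of a continuous function which is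
positive on the space. -/
theorem exists_zero (hrc : Realcompact.{u, v} X) (q : StoneCech X) (hq : q ∈ Rem X) :
    ∃ g : StoneCech X → ℝ, Continuous g ∧ (∀ p, 0 ≤ g p) ∧ g q = 0 ∧
      ∀ x : X, 0 < g (stoneCechUnit x) := by
  obtain ⟨κ, i, hi⟩ := hrc
  have hcont : ∀ α, Continuous (fun x => i x α / (1 + |i x α|)) := by
    intro α
    have h1 : Continuous (fun x => i x α) := (continuous_apply α).comp hi.continuous
    refine h1.div (continuous_const.add h1.abs) fun x => ?_
    positivity
  have hbd : ∀ α x, i x α / (1 + |i x α|) ∈ Set.Icc (-1 : ℝ) 1 := fun α x =>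
    abs_le.1 (abs_frac_lt _).le
  choose g hg hgb hgx using fun α => exists_ext _ (hcont α) (hbd α)
  by_cases hcase : ∃ α, |g α q| = 1
  · obtain ⟨α, hα⟩ := hcase
    refine ⟨fun p => 1 - |g α p|, continuous_const.sub (hg α).abs, fun p => ?_, ?_, fun x => ?_⟩
    · have := abs_le.2 (hgb α p)
      linarith
    · simp only [hα]; ring
    · simp only [hgx]
      linarith [abs_frac_lt (i x α)]
  · exfalso
    push Not at hcase
    have hlt : ∀ α, |g α q| < 1 := fun α => lt_of_le_of_ne (abs_le.2 (hgb α q)) (hcase α)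
    have hne : NeBot (comap (stoneCechUnit : X → StoneCech X) (𝓝 q)) := by
      rw [comap_neBot_iff]
      intro t ht
      obtain ⟨O, hOt, hO, hqO⟩ := mem_nhds_iff.1 ht
      obtain ⟨x, hx⟩ := denseRange_stoneCechUnit.exists_mem_open hO ⟨q, hqO⟩
      exact ⟨x, hOt hx⟩
    have h1 : ∀ α, Tendsto (fun x => i x α) (comap (stoneCechUnit : X → StoneCech X) (𝓝 q))
        (𝓝 (g α q / (1 - |g α q|))) := by
      intro α
      have h2 : Tendsto (fun x => g α (stoneCechUnit x))
          (comap (stoneCechUnit : X → StoneCech X) (𝓝 q)) (𝓝 (g α q)) :=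
        ((hg α).tendsto q).comp tendsto_comap
      have h3 := h2.div (tendsto_const_nhds.sub h2.abs (a := (1 : ℝ)))
        (by have := hlt α; intro hcon; linarith)
      refine h3.congr fun x => ?_
      simp only [Pi.div_apply, hgx]
      exact frac_inv _
    have h2 : Tendsto i (comap (stoneCechUnit : X → StoneCech X) (𝓝 q))
        (𝓝 (fun α => g α q / (1 - |g α q|))) := tendsto_pi_nhds.2 h1
    obtain ⟨x, hx⟩ : (fun α => g α q / (1 - |g α q|)) ∈ Set.range i :=
      hi.isClosed_range.mem_of_tendsto h2 (Eventually.of_forall fun x => ⟨x, rfl⟩)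
    have h3 : comap (stoneCechUnit : X → StoneCech X) (𝓝 q) ≤ 𝓝 x := by
      rw [hi.isInducing.nhds_eq_comap, hx]
      exact tendsto_iff_comap.1 h2
    have h4 : Tendsto (stoneCechUnit : X → StoneCech X) (comap stoneCechUnit (𝓝 q))
        (𝓝 (stoneCechUnit x)) := (continuous_stoneCechUnit.tendsto x).mono_left h3
    have h5 : Tendsto (stoneCechUnit : X → StoneCech X) (comap stoneCechUnit (𝓝 q)) (𝓝 q) :=
      tendsto_comap
    exact hq ⟨x, tendsto_nhds_unique h4 h5⟩

theorem closed_range (b : ℕ → ℝ) (hb : ∀ k, 0 < b k) (hlim : Tendsto b atTop (𝓝 0)) :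
    IsClosed (Set.range (fun k => (⟨b k, hb k⟩ : Set.Ioi (0 : ℝ)))) := by
  have h1 : Set.range (fun k => (⟨b k, hb k⟩ : Set.Ioi (0 : ℝ))) =
      ⋃ k, {(⟨b k, hb k⟩ : Set.Ioi (0 : ℝ))} := by
    ext t; simp [eq_comm]
  rw [h1]
  refine LocallyFinite.isClosed_iUnion ?_ (fun k => isClosed_singleton)
  intro t
  have ht : (0 : ℝ) < t.1 := t.2
  refine ⟨{s | t.1 / 2 < s.1}, ?_, ?_⟩
  · refine IsOpen.mem_nhds (isOpen_lt continuous_const continuous_subtype_val) ?_
    show t.1 / 2 < t.1
    linarith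
  · have h2 : ∀ᶠ k in atTop, b k < t.1 / 2 := hlim.eventually (gt_mem_nhds (by linarith))
    rw [← Nat.cofinite_eq_atTop] at h2
    refine Set.Finite.subset h2 ?_
    rintro k ⟨s, hs1, hs2⟩
    have hs1' : s = ⟨b k, hb k⟩ := hs1
    rw [hs1'] at hs2
    have hs3 : t.1 / 2 < b k := hs2
    intro hcon
    exact lt_asymm hs3 hcon

/-- No sequence of points different from `q` converges to a point `q` of the remainder. -/
theorem no_seq (hrc : Realcompact.{u, v} X) (q : StoneCech X) (hq : q ∈ Rem X)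
    (p : ℕ → StoneCech X) (hp : ∀ n, p n ≠ q) : ¬ Tendsto p atTop (𝓝 q) := by
  intro hlim
  obtain ⟨g0, hg0, hg0n, hg0q, hg0x⟩ := exists_zero hrc q hq
  have hsep : ∀ n, ∃ h : StoneCech X → ℝ, Continuous h ∧ (∀ y, h y ∈ Set.Icc (0 : ℝ) 1) ∧
      h q = 0 ∧ h (p n) = 1 := by
    intro n
    obtain ⟨f, hf0, hf1, hfb⟩ := exists_continuous_zero_one_of_isClosed
      (isClosed_singleton (x := q)) (isClosed_singleton (x := p n))
      (by simpa using (hp n).symm)
    exact ⟨f, f.continuous, hfb, hf0 rfl, hf1 rfl⟩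
  choose h hh hhb hhq hhp using hsep
  have hterm : ∀ n y, 0 ≤ (1 / 2 : ℝ) ^ n * h n y := fun n y =>
    mul_nonneg (by positivity) (hhb n y).1
  have hterm' : ∀ n y, (1 / 2 : ℝ) ^ n * h n y ≤ (1 / 2 : ℝ) ^ n := fun n y =>
    mul_le_of_le_one_right (by positivity) (hhb n y).2
  have hsum : ∀ y, Summable fun n => (1 / 2 : ℝ) ^ n * h n y := fun y =>
    Summable.of_nonneg_of_le (fun n => hterm n y) (fun n => hterm' n y) summable_geometric_two
  let g : StoneCech X → ℝ := fun y => g0 y + ∑' n, (1 / 2 : ℝ) ^ n * h n y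
  have hg : Continuous g := by
    refine hg0.add (continuous_tsum (fun n => continuous_const.mul (hh n))
      summable_geometric_two fun n y => ?_)
    rw [Real.norm_of_nonneg (hterm n y)]
    exact hterm' n y
  have hgq : g q = 0 := by simp [g, hg0q, hhq]
  have hgp : ∀ n, 0 < g (p n) := by
    intro n
    have h1 : (1 / 2 : ℝ) ^ n * h n (p n) ≤ ∑' m, (1 / 2 : ℝ) ^ m * h m (p n) :=
      (hsum (p n)).le_tsum n (fun m _ => hterm m (p n))
    rw [hhp, mul_one] at h1
    have h2 : (0 : ℝ) < (1 / 2 : ℝ) ^ n := by positivity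
    have h3 := hg0n (p n)
    show 0 < g0 (p n) + ∑' m, (1 / 2 : ℝ) ^ m * h m (p n)
    linarith
  have hgx : ∀ x : X, 0 < g (stoneCechUnit x) := by
    intro x
    have h1 : 0 ≤ ∑' m, (1 / 2 : ℝ) ^ m * h m (stoneCechUnit x) :=
      tsum_nonneg fun m => hterm m _
    have h2 := hg0x x
    show 0 < g0 (stoneCechUnit x) + ∑' m, (1 / 2 : ℝ) ^ m * h m (stoneCechUnit x)
    linarith
  have halim : Tendsto (fun n => g (p n)) atTop (𝓝 0) := by
    have := (hg.tendsto q).comp hlim
    rw [hgq] at this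
    exact this
  obtain ⟨e, he⟩ := exists_increasing_or_nonincreasing_subseq (· > ·) (fun n => g (p n))
  rcases he with he | he
  swap
  · have h1 : ∀ n, g (p (e 0)) ≤ g (p (e (n + 1))) := fun n =>
      not_lt.1 (he 0 (n + 1) (Nat.succ_pos n))
    have h2 : Tendsto (fun n => g (p (e (n + 1)))) atTop (𝓝 0) :=
      halim.comp (e.strictMono.tendsto_atTop.comp (tendsto_add_atTop_nat 1))
    have h3 := ge_of_tendsto' h2 h1
    exact absurd (hgp (e 0)) (not_lt.2 h3)
  · let b : ℕ → ℝ := fun k => g (p (e k))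
    have hb : ∀ k, 0 < b k := fun k => hgp _
    have hblim : Tendsto b atTop (𝓝 0) := halim.comp e.strictMono.tendsto_atTop
    have hbinj : Function.Injective b := by
      have : StrictAnti b := fun m n hmn => he m n hmn
      exact this.injective
    have h2 : Tendsto (fun k : ℕ => 2 * k) atTop atTop :=
      tendsto_atTop_mono (fun k => by simp only [id]; omega) tendsto_id
    have h2' : Tendsto (fun k : ℕ => 2 * k + 1) atTop atTop :=
      tendsto_atTop_mono (fun k => by simp only [id]; omega) tendsto_id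
    have hc0 := closed_range (fun k => b (2 * k)) (fun k => hb _) (hblim.comp h2)
    have hc1 := closed_range (fun k => b (2 * k + 1)) (fun k => hb _) (hblim.comp h2')
    obtain ⟨θ, hθ0, hθ1, hθb⟩ := exists_continuous_zero_one_of_isClosed hc0 hc1 (by
      rw [Set.disjoint_left]
      rintro _ ⟨k, rfl⟩ ⟨l, hl⟩
      have h3 : b (2 * l + 1) = b (2 * k) := congrArg Subtype.val hl
      have := hbinj h3
      omega)
    have hfc : Continuous (fun x : X => θ ⟨g (stoneCechUnit x), hgx x⟩) :=
      θ.continuous.comp ((hg.comp continuous_stoneCechUnit).subtype_mk _)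
    obtain ⟨Φ, hΦ, -, hΦx⟩ := exists_ext (fun x : X => θ ⟨g (stoneCechUnit x), hgx x⟩) hfc
      (fun x => ⟨by linarith [(hθb ⟨g (stoneCechUnit x), hgx x⟩).1],
        (hθb ⟨g (stoneCechUnit x), hgx x⟩).2⟩)
    have hop : IsOpen {y : StoneCech X | 0 < g y} := isOpen_lt continuous_const hg
    have hkey : ∀ y : {y : StoneCech X | 0 < g y}, Φ y.1 = θ ⟨g y.1, y.2⟩ := by
      have hd : Dense (Subtype.val ⁻¹' (Set.range (stoneCechUnit : X → StoneCech X)) :
          Set {y : StoneCech X | 0 < g y}) :=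
        Dense.preimage denseRange_stoneCechUnit hop.isOpenMap_subtype_val
      have h3 : Continuous (fun y : {y : StoneCech X | 0 < g y} => Φ y.1) :=
        hΦ.comp continuous_subtype_val
      have h4 : Continuous (fun y : {y : StoneCech X | 0 < g y} =>
          θ (⟨g y.1, y.2⟩ : Set.Ioi (0 : ℝ))) :=
        θ.continuous.comp ((hg.comp continuous_subtype_val).subtype_mk _)
      have h5 := Continuous.ext_on hd h3 h4 (by
        rintro ⟨y, hy⟩ ⟨x, hx⟩
        have hx' : stoneCechUnit x = y := hx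
        subst hx'
        exact hΦx x)
      intro y
      exact congrFun h5 y
    have hΦlim : Tendsto (fun k => Φ (p (e k))) atTop (𝓝 (Φ q)) :=
      (hΦ.tendsto q).comp (hlim.comp e.strictMono.tendsto_atTop)
    have e0 : ∀ k, Φ (p (e (2 * k))) = 0 := by
      intro k
      rw [hkey ⟨p (e (2 * k)), hb _⟩]
      exact hθ0 ⟨k, rfl⟩
    have e1 : ∀ k, Φ (p (e (2 * k + 1))) = 1 := by
      intro k
      rw [hkey ⟨p (e (2 * k + 1)), hb _⟩]
      exact hθ1 ⟨k, rfl⟩
    have l0 := hΦlim.comp h2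
    have l1 := hΦlim.comp h2'
    have l0' : Tendsto (fun _ : ℕ => (0 : ℝ)) atTop (𝓝 (Φ q)) := l0.congr e0
    have l1' : Tendsto (fun _ : ℕ => (1 : ℝ)) atTop (𝓝 (Φ q)) := l1.congr e1
    have q0 := tendsto_nhds_unique l0' tendsto_const_nhds
    have q1 := tendsto_nhds_unique l1' tendsto_const_nhds
    rw [q0] at q1
    exact zero_ne_one q1

/-- Nonempty open subsets of the remainder are infinite. -/
theorem infinite_open (hrc : Realcompact.{u, v} X) (O : Set (StoneCech X)) (hO : IsOpen O)
    (q : StoneCech X) (hqO : q ∈ O) (hq : q ∈ Rem X) : (O ∩ Rem X).Infinite := by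
  intro hfin
  obtain ⟨g, hg, hgn, hgq, hgx⟩ := exists_zero hrc q hq
  have hS : ((O ∩ Rem X) \ {q}).Finite := hfin.subset Set.sdiff_subset
  have hO1 : IsOpen (O \ ((O ∩ Rem X) \ {q})) := hO.sdiff hS.isClosed
  have hq1 : q ∈ O \ ((O ∩ Rem X) \ {q}) := ⟨hqO, fun h => h.2 rfl⟩
  obtain ⟨t, ht, htc, htO⟩ := exists_mem_nhds_isClosed_subset (hO1.mem_nhds hq1)
  have hxs : ∀ n : ℕ, ∃ x : X, stoneCechUnit x ∈ interior t ∩ {y | g y < 1 / ((n : ℝ) + 1)} := by
    intro n
    refine denseRange_stoneCechUnit.exists_mem_open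
      (isOpen_interior.inter (isOpen_lt hg continuous_const)) ⟨q, ?_, ?_⟩
    · exact mem_interior_iff_mem_nhds.2 ht
    · show g q < 1 / ((n : ℝ) + 1)
      rw [hgq]
      positivity
  choose x hx using hxs
  refine no_seq hrc q hq (fun n => stoneCechUnit (x n)) (fun n hcon => hq ⟨x n, hcon⟩) ?_
  refine htc.isCompact.le_nhds_of_unique_clusterPt ?_ ?_
  · rw [mem_map]
    refine Filter.mem_of_superset univ_mem fun n _ => ?_
    show stoneCechUnit (x n) ∈ t
    exact (interior_subset (s := t)) (hx n).1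
  · intro y hyt hcl
    by_contra hne
    have hyX : y ∈ Set.range (stoneCechUnit : X → StoneCech X) := by
      by_contra hcon
      exact (htO hyt).2 ⟨⟨(htO hyt).1, hcon⟩, hne⟩
    obtain ⟨z, rfl⟩ := hyX
    have hz := hgx z
    have h1 : MapClusterPt (stoneCechUnit z) atTop (fun n => stoneCechUnit (x n)) := hcl
    rw [mapClusterPt_iff_frequently] at h1
    have h2 := h1 {w | g (stoneCechUnit z) / 2 < g w}
      ((isOpen_lt continuous_const hg).mem_nhds (by
        show g (stoneCechUnit z) / 2 < g (stoneCechUnit z)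
        linarith))
    have h3 : ∀ᶠ n : ℕ in atTop, 1 / ((n : ℝ) + 1) < g (stoneCechUnit z) / 2 :=
      tendsto_one_div_add_atTop_nhds_zero_nat.eventually (gt_mem_nhds (by linarith))
    obtain ⟨n, hn1, hn2⟩ := (h2.and_eventually h3).exists
    have h4 : g (stoneCechUnit (x n)) < 1 / ((n : ℝ) + 1) := (hx n).2
    have h5 : g (stoneCechUnit z) / 2 < g (stoneCechUnit (x n)) := hn1
    linarith

/-- Choosing distinct points from infinite sets. -/
theorem exists_injective_choice {α : Type*} (A : ℕ → Set α) (hA : ∀ n, (A n).Infinite) :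
    ∃ x : ℕ → α, (∀ n, x n ∈ A n) ∧ Function.Injective x := by
  classical
  have h : ∀ (n : ℕ) (s : Finset α), ∃ y, y ∈ A n ∧ y ∉ s := by
    intro n s
    obtain ⟨y, hy, hys⟩ := (hA n).exists_notMem_finset s
    exact ⟨y, hy, hys⟩
  choose c hcA hcs using h
  let r : ℕ → Finset α := fun n => Nat.rec ∅ (fun n s => insert (c n s) s) n
  have hr : ∀ n, r (n + 1) = insert (c n (r n)) (r n) := fun n => rfl
  have hmono : Monotone r := monotone_nat_of_le_succ fun n => by
    rw [hr]; exact Finset.subset_insert _ _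
  refine ⟨fun n => c n (r n), fun n => hcA n _, ?_⟩
  have hlt : ∀ m n, m < n → c m (r m) ≠ c n (r n) := by
    intro m n hmn hcon
    have h1 : c m (r m) ∈ r (m + 1) := by rw [hr]; exact Finset.mem_insert_self _ _
    have h2 : c m (r m) ∈ r n := hmono hmn h1
    rw [hcon] at h2
    exact hcs n (r n) h2
  intro m n hmn
  rcases lt_trichotomy m n with h1 | h1 | h1
  · exact absurd hmn (hlt m n h1)
  · exact h1
  · exact absurd hmn.symm (hlt n m h1)

/-- The Stone-Čech remainder of a realcompact space is selectively highly divergent. -/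
theorem result (hrc : Realcompact.{u, v} X) : SHD (Rem X) := by
  intro U hU
  have hinf : ∀ n, (U n).Infinite := by
    intro n
    obtain ⟨O, hO, hOU⟩ := isOpen_induced_iff.1 (hU n).1
    obtain ⟨q, hq⟩ := (hU n).2
    have hqO : q.1 ∈ O := by
      have : q ∈ Subtype.val ⁻¹' O := by rw [hOU]; exact hq
      exact this
    have h1 := infinite_open hrc O hO q.1 hqO q.2
    intro hfin
    apply h1
    have h2 : O ∩ Rem X ⊆ Subtype.val '' (U n) := by
      rintro y ⟨hyO, hyR⟩
      refine ⟨⟨y, hyR⟩, ?_, rfl⟩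
      rw [← hOU]
      exact hyO
    exact (hfin.image _).subset h2
  obtain ⟨x, hxU, hxinj⟩ := exists_injective_choice U hinf
  refine ⟨x, hxU, fun φ hφ a ha => ?_⟩
  -- eventually the points differ from `a`
  have hev : ∃ N, ∀ k, N ≤ k → x (φ k) ≠ a := by
    by_cases hc : ∃ k, x (φ k) = a
    · obtain ⟨k, hk⟩ := hc
      refine ⟨k + 1, fun l hl hcon => ?_⟩
      have h1 := hφ.injective (hxinj (hcon.trans hk.symm))
      omega
    · push Not at hc
      exact ⟨0, fun k _ => hc k⟩
  obtain ⟨N, hN⟩ := hev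
  refine no_seq hrc a.1 a.2 (fun k => (x (φ (k + N))).1) (fun k hcon => ?_) ?_
  · exact hN (k + N) (by omega) (Subtype.ext hcon)
  · have h1 : Tendsto (fun k => (x (φ k)).1) atTop (𝓝 a.1) :=
      (continuous_subtype_val.tendsto a).comp ha
    exact h1.comp (tendsto_add_atTop_nat N)

end Pool.Agent.Results.MP_47dce7_gt.Remainder
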